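import Mathlib
import Pool.Agent.H76.SdEx

set_option autoImplicit false

open Pool.Agent.H76.LefDefs Pool.Agent.H76.ShellCM Pool.Agent.H76.SdEx in
theorem Pool.Agent.Results.MP_28b0d6_al.LeafTriangles.result :
    ∃ Γ : Set (Finset (Fin 9)),
      (∀ s ∈ Γ, ∀ t, t ⊆ s → t ∈ Γ) ∧ (∀ v, {v} ∈ Γ) ∧
      (∀ s ∈ Γ, ∃ t ∈ Γ, s ⊆ t ∧ t.card = 3) ∧
      ∀ (K : Type) [Field K], IsCM (srIdeal K (sd Γ)) 3 ∧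
        ∀ θ : Fin 3 → MvPolynomial (SdV Γ) K, IsLSOP (srIdeal K (sd Γ)) θ →
          ¬ WLP (srIdeal K (sd Γ) ⊔ Ideal.span (Set.range θ)) := by
  refine ⟨Gam, ?_, ?_, ?_, fun K _ => ⟨cm K, no_wlp K⟩⟩
  · rintro s ⟨v, hv⟩ t ht
    exact ⟨v, ht.trans hv⟩
  · intro i
    obtain ⟨v, hv⟩ := d0' i
    exact ⟨v, Finset.singleton_subset_iff.2 hv⟩
  · rintro s ⟨v, hv⟩
    obtain ⟨u, h1, h2⟩ := (d0 v).2.2
    exact ⟨fs u, ⟨u, subset_rfl⟩, hv.trans ((d2 v u).2 h1), h2⟩
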